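import Pool.Agent.H95.FI.Defs

set_option autoImplicit false

open MvPolynomial

namespace H31.FI
open H95.FG H95.FI

/-- `x ↦ (x · Y j)_j` -/
noncomputable def dlm {n s : ℕ} (Y : Fin s → Fin n → ℂ) : (Fin n → ℂ) →ₗ[ℂ] (Fin s → ℂ) :=
  Matrix.mulVecLin (Matrix.of fun j k => Y j k)

theorem dlm_apply {n s : ℕ} (Y : Fin s → Fin n → ℂ) (x : Fin n → ℂ) (j : Fin s) :
    dlm Y x j = dt x (Y j) := by
  simp only [dlm, Matrix.mulVecLin_apply, Matrix.mulVec, dotProduct, Matrix.of_apply, dt]
  exact Finset.sum_congr rfl fun k _ => mul_comm _ _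

/-- ordered basis adapted to `span z ≤ H ≤ ℂ^n`. -/
theorem basis_aux {n s : ℕ} (z : Fin s → Fin n → ℂ) (H : Submodule ℂ (Fin n → ℂ))
    (hn : 2 * s + 1 ≤ n) (hz : ∀ i, z i ∈ H) (hH : n ≤ Module.finrank ℂ H + s) :
    ∃ col : Fin n → Fin n → ℂ, LinearIndependent ℂ col ∧
      (∀ i, z i ∈ Submodule.span ℂ (col '' {k | k.val < s})) ∧
      ∀ k : Fin n, (k.val < s ∨ 2 * s ≤ k.val) → col k ∈ H := by
  classical
  obtain ⟨b1, hb1z, -, hzb1, hl1⟩ := exists_linearIndepOn_id_extension (K := ℂ)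
    (linearIndependent_empty ℂ (Fin n → ℂ)) (Set.empty_subset (Set.range z))
  have hb1H : b1 ⊆ (H : Set (Fin n → ℂ)) := fun x hx => by
    obtain ⟨i, rfl⟩ := hb1z hx
    exact hz i
  obtain ⟨b2, hb2H, hb12, hHb2, hl2⟩ := exists_linearIndepOn_id_extension hl1 hb1H
  obtain ⟨b3, -, hb23, hb3, hl3⟩ := exists_linearIndepOn_id_extension hl2 (Set.subset_univ b2)
  have hli3 : LinearIndependent ℂ ((↑) : b3 → (Fin n → ℂ)) := hl3
  have hb3f : b3.Finite := hli3.setFinite
  have : Fintype b3 := hb3f.fintype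
  have hb2f : b2.Finite := hb3f.subset hb23
  have hb1f : b1.Finite := hb2f.subset hb12
  have hcard3 : Fintype.card b3 = n := by
    have h1 : ⊤ ≤ Submodule.span ℂ (Set.range ((↑) : b3 → (Fin n → ℂ))) := by
      rw [Subtype.range_coe]
      intro x _
      exact hb3 (Set.mem_univ x)
    have h2 := Module.finrank_eq_card_basis (Module.Basis.mk hli3 h1)
    rw [← h2]; simp
  have hc1 : hb1f.toFinset.card ≤ s := by
    have h1 : hb1f.toFinset ⊆ Finset.univ.image z := by
      intro x hx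
      rw [Set.Finite.mem_toFinset] at hx
      obtain ⟨i, rfl⟩ := hb1z hx
      exact Finset.mem_image_of_mem _ (Finset.mem_univ i)
    calc hb1f.toFinset.card ≤ (Finset.univ.image z).card := Finset.card_le_card h1
      _ ≤ (Finset.univ : Finset (Fin s)).card := Finset.card_image_le
      _ = s := by simp
  have hc2 : n ≤ hb2f.toFinset.card + s := by
    have h1 : H ≤ Submodule.span ℂ ((hb2f.toFinset : Finset (Fin n → ℂ)) : Set (Fin n → ℂ)) := by
      rw [Set.Finite.coe_toFinset]; exact hHb2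
    have h2 := Submodule.finrank_mono h1
    have h3 := finrank_span_finset_le_card (R := ℂ) (hb2f.toFinset)
    have h4 := h2.trans h3
    omega
  have hc3 : hb3f.toFinset.card = n := by
    have h1 : hb3f.toFinset.card = Fintype.card b3 := by
      rw [← Set.toFinset_card]
      congr 1
      ext x; simp
    exact h1.trans hcard3
  have hc32 : (hb3f.toFinset \ hb2f.toFinset).card ≤ s := by
    rw [Finset.card_sdiff_of_subset (by
      intro x hx
      rw [Set.Finite.mem_toFinset] at hx ⊢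
      exact hb23 hx)]
    omega
  obtain ⟨e1⟩ : Nonempty ((hb1f.toFinset : Finset (Fin n → ℂ)) ↪ Fin s) :=
    Function.Embedding.nonempty_of_card_le (by simpa using hc1)
  obtain ⟨e3⟩ : Nonempty ((hb3f.toFinset \ hb2f.toFinset : Finset (Fin n → ℂ)) ↪ Fin s) :=
    Function.Embedding.nonempty_of_card_le (by simpa using hc32)
  let f : b3 → Fin n := fun x =>
    if h : x.1 ∈ b1 then ⟨(e1 ⟨x.1, by simpa using h⟩).val, by
      have := (e1 ⟨x.1, by simpa using h⟩).isLt; omega⟩
    else if h : x.1 ∉ b2 then ⟨s + (e3 ⟨x.1, by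
      rw [Finset.mem_sdiff, Set.Finite.mem_toFinset, Set.Finite.mem_toFinset]
      exact ⟨x.2, h⟩⟩).val, by
      have := (e3 ⟨x.1, by
        rw [Finset.mem_sdiff, Set.Finite.mem_toFinset, Set.Finite.mem_toFinset]
        exact ⟨x.2, h⟩⟩).isLt; omega⟩
    else ⟨0, by omega⟩
  have hf1 : ∀ x : b3, x.1 ∈ b1 → (f x).val < s := by
    intro x hx
    simp only [f, hx, dif_pos]
    exact (e1 _).isLt
  have hf3 : ∀ x : b3, x.1 ∉ b2 → s ≤ (f x).val ∧ (f x).val < 2 * s := by
    intro x hx
    have hx1 : x.1 ∉ b1 := fun h => hx (hb12 h)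
    simp only [f, hx1, hx, dif_neg, not_false_eq_true, dif_pos]
    have := (e3 ⟨x.1, by
        rw [Finset.mem_sdiff, Set.Finite.mem_toFinset, Set.Finite.mem_toFinset]
        exact ⟨x.2, hx⟩⟩).isLt
    constructor <;> omega
  have hinj : Set.InjOn f {x : b3 | x.1 ∈ b1 ∨ x.1 ∉ b2} := by
    intro x hx y hy hxy
    rcases hx with hx | hx <;> rcases hy with hy | hy
    · simp only [f, hx, hy, dif_pos, Fin.mk.injEq] at hxy
      have h1 := e1.injective (Fin.ext hxy)
      exact Subtype.ext (Subtype.mk.inj h1)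
    · have h1 := hf1 x hx
      have h2 := hf3 y hy
      rw [hxy] at h1; omega
    · have h1 := hf1 y hy
      have h2 := hf3 x hx
      rw [hxy] at h2; omega
    · have hx1 : x.1 ∉ b1 := fun h => hx (hb12 h)
      have hy1 : y.1 ∉ b1 := fun h => hy (hb12 h)
      simp only [f, hx1, hx, hy1, hy, dif_neg, not_false_eq_true, dif_pos, Fin.mk.injEq,
        Nat.add_left_cancel_iff] at hxy
      have h1 := e3.injective (Fin.ext hxy)
      exact Subtype.ext (Subtype.mk.inj h1)
  obtain ⟨g, hg⟩ := Set.MapsTo.exists_equiv_extend_of_card_eq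
    (t := (Finset.univ : Finset (Fin n))) (by simpa using hcard3)
    (s := {x : b3 | x.1 ∈ b1 ∨ x.1 ∉ b2}) (f := f) (fun x _ => by simp) hinj
  let col : Fin n → Fin n → ℂ := fun k => (g.symm ⟨k, Finset.mem_univ k⟩ : b3).1
  refine ⟨col, ?_, ?_, ?_⟩
  · refine hli3.comp (fun k : Fin n => g.symm ⟨k, Finset.mem_univ k⟩) ?_
    intro k l hkl
    have := g.symm.injective hkl
    exact congrArg Subtype.val this
  · intro i
    have h1 : z i ∈ Submodule.span ℂ b1 := hzb1 (Set.mem_range_self i)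
    refine Submodule.span_mono ?_ h1
    intro x hx
    have hx3 : x ∈ b3 := hb23 (hb12 hx)
    refine ⟨(g ⟨x, hx3⟩ : Fin n), ?_, ?_⟩
    · change ((g ⟨x, hx3⟩ : Fin n)).val < s
      rw [hg ⟨x, hx3⟩ (Or.inl hx)]
      exact hf1 _ hx
    · change ((g.symm ⟨(g ⟨x, hx3⟩ : Fin n), Finset.mem_univ _⟩ : b3).1) = x
      have : (⟨((g ⟨x, hx3⟩ : Finset.univ) : Fin n), Finset.mem_univ _⟩ :
        (Finset.univ : Finset (Fin n))) = g ⟨x, hx3⟩ := Subtype.ext rfl
      rw [this, Equiv.symm_apply_apply]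
  · intro k hk
    by_contra hcon
    have h2 : (g.symm ⟨k, Finset.mem_univ k⟩ : b3).1 ∉ b2 := fun h => hcon (hb2H h)
    have h3 := hg _ (Or.inr h2 : (g.symm ⟨k, Finset.mem_univ k⟩ : b3) ∈
      {x : b3 | x.1 ∈ b1 ∨ x.1 ∉ b2})
    rw [Equiv.apply_symm_apply] at h3
    have h4 := hf3 _ h2
    have h5 : (f (g.symm ⟨k, Finset.mem_univ k⟩)).val = k.val := by rw [← h3]
    omega

theorem t_ADA : S_ADA := by
  classical
  intro n s z Y hn hO
  set H : Submodule ℂ (Fin n → ℂ) := LinearMap.ker (dlm Y) with hH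
  have hHm : ∀ x, x ∈ H ↔ ∀ j, dt x (Y j) = 0 := by
    intro x
    rw [hH, LinearMap.mem_ker]
    constructor
    · intro h j
      rw [← dlm_apply, h]; rfl
    · intro h
      ext j
      rw [dlm_apply, h j]; rfl
  have hfr : n ≤ Module.finrank ℂ H + s := by
    have h1 := LinearMap.finrank_range_add_finrank_ker (dlm Y)
    have h2 := Submodule.finrank_le (LinearMap.range (dlm Y))
    rw [← hH] at h1
    simp only [Module.finrank_fintype_fun_eq_card, Fintype.card_fin] at h1 h2
    omega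
  obtain ⟨col, hcol, hz, hcH⟩ := basis_aux z H hn (fun i => (hHm _).2 fun j => hO i j) hfr
  let Z0 : Matrix (Fin n) (Fin n) ℂ := Matrix.of fun l k => col k l
  have hZ0 : Z0.det ≠ 0 := by
    have h1 : LinearIndependent ℂ Z0.col := hcol
    rw [Matrix.linearIndependent_cols_iff_isUnit, Matrix.isUnit_iff_isUnit_det] at h1
    exact h1.ne_zero
  have hn0 : 0 < n := by omega
  let d : Fin n → ℂ := Function.update (fun _ => 1) ⟨0, hn0⟩ (Z0.det)⁻¹
  have hd : ∀ k, d k ≠ 0 := by
    intro k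
    by_cases hk : k = ⟨0, hn0⟩
    · subst hk; simp only [d, Function.update_self]; exact inv_ne_zero hZ0
    · simp only [d, Function.update_of_ne hk]; exact one_ne_zero
  let Z : Matrix (Fin n) (Fin n) ℂ := Z0 * Matrix.diagonal d
  have hZe : ∀ l k, Z l k = col k l * d k := by
    intro l k
    simp only [Z, Matrix.mul_diagonal, Z0, Matrix.of_apply]
  have hZd : Z.det = 1 := by
    simp only [Z, Matrix.det_mul, Matrix.det_diagonal, d]
    rw [Finset.prod_update_of_mem (Finset.mem_univ _)]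
    simp [hZ0]
  have hW : ∀ x ∈ Submodule.span ℂ (col '' {k : Fin n | k.val < s}),
      ∃ c : Fin n → ℂ, (∀ k : Fin n, s ≤ k.val → c k = 0) ∧ x = Z.mulVec c := by
    intro x hx
    induction hx using Submodule.span_induction with
    | mem x hx =>
      obtain ⟨k, hk, rfl⟩ := hx
      refine ⟨Pi.single k (d k)⁻¹, ?_, ?_⟩
      · intro l hl
        have : l ≠ k := by
          rintro rfl
          exact absurd hk (by simp only [Set.mem_ofPred_eq]; omega)
        exact Pi.single_eq_of_ne this _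
      · ext l
        rw [Matrix.mulVec_single]
        simp [hZe, hd k]
    | zero => exact ⟨0, fun _ _ => rfl, by simp⟩
    | add x y _ _ hx hy =>
      obtain ⟨c, hc, rfl⟩ := hx
      obtain ⟨c', hc', rfl⟩ := hy
      exact ⟨c + c', fun k hk => by simp [hc k hk, hc' k hk], by rw [Matrix.mulVec_add]⟩
    | smul a x _ hx =>
      obtain ⟨c, hc, rfl⟩ := hx
      exact ⟨a • c, fun k hk => by simp [hc k hk], by rw [Matrix.mulVec_smul]⟩
  choose c hc0 hc using fun i => hW (z i) (hz i)
  refine ⟨Z, c, fun j => Z.transpose.mulVec (Y j), hZd, hc, ?_, fun i k hk => hc0 i k hk, ?_⟩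
  · intro j
    rw [Matrix.mulVec_mulVec, ← Matrix.transpose_mul, Matrix.mul_adjugate, hZd, one_smul,
      Matrix.transpose_one, Matrix.one_mulVec]
  · intro j k hk
    have h1 := (hHm _).1 (hcH k hk) j
    simp only [Matrix.mulVec, dotProduct, Matrix.transpose_apply, hZe]
    rw [dt] at h1
    have h2 : ∑ l, col k l * d k * Y j l = d k * ∑ l, col k l * Y j l := by
      rw [Finset.mul_sum]
      exact Finset.sum_congr rfl fun l _ => by ring
    rw [h2, h1, mul_zero]

end H31.FI
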